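import Pool.Agent.H369.SM.Stm

/-!
# Coefficients of the functions on the smoothing, constants (project SM of helper369)
-/

set_option autoImplicit false

namespace Pool.Agent.H199.SM

open Pool.Agent.TH549.CK Pool.Agent.H369.SM

theorem coeff_th_nat {F : Type} [Field F] (y : PowerSeries (PowerSeries F)) (m k : ℕ) :
    (PowerSeries.coeff m (P7.th F y)).coeff (k : ℤ) = PowerSeries.coeff k (PowerSeries.coeff m y) := by
  rw [P7.th, PowerSeries.coeff_map, PowerSeries.coeff_coe, if_neg (by omega)]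
  rfl

section
variable {F 𝕂 P : Type} [Field F] [Field 𝕂] [Algebra F 𝕂]

theorem coeff_EvL (C : Crv F 𝕂 P) (x : P) (f : PowerSeries 𝕂) (b : ℕ) (k : ℤ) :
    (PowerSeries.coeff b (C.EvL x f)).coeff k = (C.E x (PowerSeries.coeff b f)).coeff (k - b) := by
  have h1 : PowerSeries.coeff b (C.EvL x f) =
      (HahnSeries.single (1 : ℤ) (1 : F) : LaurentSeries F) ^ b * C.E x (PowerSeries.coeff b f) := by
    simp [Crv.EvL, PowerSeries.coeff_rescale]
  rw [h1, HahnSeries.single_pow, one_pow, HahnSeries.coeff_single_mul, one_mul]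
  simp

theorem coeff_Ec (C : Crv F 𝕂 P) (x : P) (f : PowerSeries 𝕂) (b : ℕ) :
    PowerSeries.coeff b (C.Ec x f) = C.E x (PowerSeries.coeff b f) := by
  rw [Crv.Ec, PowerSeries.coeff_map]

theorem coeff_oh' (C : Crv F 𝕂 P) (x : P) (c : PowerSeries F) (b : ℕ) (k : ℤ) :
    (C.E x (PowerSeries.coeff b (Pool.Agent.H369.SM.oh F 𝕂 c))).coeff k =
      if k = 0 then PowerSeries.coeff b c else 0 := by
  rw [Pool.Agent.H369.SM.oh, PowerSeries.coeff_map, C.const, HahnSeries.C_apply]
  by_cases hk : k = 0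
  · rw [if_pos hk, hk, HahnSeries.coeff_single_same]
  · rw [if_neg hk, HahnSeries.coeff_single_of_ne hk]

theorem coeff_uv (c : PowerSeries F) (m k : ℕ) :
    PowerSeries.coeff k (PowerSeries.coeff m (uv F c)) =
      if k = m then PowerSeries.coeff m c else 0 := by
  have h1 : PowerSeries.coeff m (uv F c) =
      (PowerSeries.X : PowerSeries F) ^ m * PowerSeries.C (PowerSeries.coeff m c) := by
    simp [uv, PowerSeries.coeff_rescale]
  rw [h1, PowerSeries.coeff_mul_C, PowerSeries.coeff_X_pow]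
  split_ifs <;> simp

end

theorem mem : S_mem := by
  intro F 𝕂 P _ _ _ C m N f
  constructor
  · rintro ⟨h1, h2⟩
    refine ⟨fun x hx1 hx2 hx3 k l hl => ?_, fun i => ?_⟩
    · obtain ⟨y, hy⟩ := h1 x hx1 hx2 hx3
      rw [← coeff_Ec, ← hy]
      exact P7.coeff_th y k l hl
    · obtain ⟨y, hy, hy'⟩ := h2 i
      refine ⟨fun k l hl => ?_, fun k l hl => ?_, fun a b => ?_⟩
      · have h3 := P7.coeff_th y k (l + k) (by omega)
        rw [hy, coeff_EvL] at h3
        rwa [add_sub_cancel_right] at h3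
      · have h3 := P7.coeff_th (swp y) k (l + k) (by omega)
        rw [hy', coeff_EvL] at h3
        rwa [add_sub_cancel_right] at h3
      · rw [← coeff_EvL, ← coeff_EvL, ← hy, ← hy', coeff_th_nat, coeff_th_nat, coeff_coeff_swp]
  · rintro ⟨h1, h2⟩
    refine ⟨fun x hx1 hx2 hx3 => ?_, fun i => ?_⟩
    · obtain ⟨y, hy⟩ := P7.exists_th (z := C.Ec x f) (fun k l hl => by
        rw [coeff_Ec]
        exact h1 x hx1 hx2 hx3 k l hl)
      exact ⟨y, hy⟩
    · obtain ⟨h3, h4, h5⟩ := h2 i
      obtain ⟨y, hy⟩ := P7.exists_th (z := C.EvL (N.p i) f) (fun k l hl => by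
        rw [coeff_EvL]
        exact h3 k _ (by omega))
      obtain ⟨y', hy'⟩ := P7.exists_th (z := C.EvL (N.q i) f) (fun k l hl => by
        rw [coeff_EvL]
        exact h4 k _ (by omega))
      have h6 : swp y = y' := by
        ext a b
        rw [coeff_coeff_swp, ← coeff_th_nat, ← coeff_th_nat, hy, hy', coeff_EvL, coeff_EvL]
        exact h5 a b
      exact ⟨y, hy, by rw [h6, hy']⟩

theorem oh_mem : S_oh := by
  intro F 𝕂 P _ _ _ C m N c
  refine ⟨?_, fun k l hl => ?_, fun x => ?_, ?_, fun k => ?_⟩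
  · refine (mem F 𝕂 P C m N _).2 ⟨fun x _ _ _ k l hl => ?_, fun i => ⟨fun k l hl => ?_,
      fun k l hl => ?_, fun a b => ?_⟩⟩
    · rw [coeff_oh', if_neg (by omega)]
    · rw [coeff_oh', if_neg (by omega)]
    · rw [coeff_oh', if_neg (by omega)]
    · rw [coeff_oh', coeff_oh']
      by_cases hab : a = b
      · subst hab
        rfl
      · rw [if_neg (by omega), if_neg (by omega)]
  · rw [coeff_oh', if_neg (by push_cast at hl; omega)]
  · ext b k
    rw [coeff_EvL, coeff_oh']
    by_cases hk : k < 0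
    · rw [P7.coeff_th _ _ _ hk, if_neg (by omega)]
    · obtain ⟨n, rfl⟩ := Int.eq_ofNat_of_zero_le (not_lt.1 hk)
      rw [coeff_th_nat, coeff_uv]
      by_cases hn : n = b
      · rw [if_pos hn, if_pos (by omega)]
      · rw [if_neg hn, if_neg (by omega)]
  · ext a b
    rw [coeff_coeff_swp, coeff_uv, coeff_uv]
    by_cases hab : a = b
    · rw [if_pos hab, if_pos hab.symm, hab]
    · rw [if_neg hab, if_neg (fun h => hab h.symm)]
  · ext j
    rw [Pool.Agent.H369.SM.cinf, PowerSeries.coeff_mk, coeff_oh']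
    by_cases hk : k = 0
    · rw [if_pos hk, if_pos hk]
    · rw [if_neg hk, if_neg hk, map_zero]

end Pool.Agent.H199.SM
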